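import Pool.Agent.K4H68.TC.Data
import Pool.Agent.K4H68.QC.Basic

set_option autoImplicit false

open Finset

namespace Pool.Agent.K4H68.TC

/-- the three inequalities in the form in which they are used -/
theorem ineq (C D : Cert) (hC : C.valid = true) (hD : D.valid = true) (u v w : ℤ)
    (hCD : ∀ p p' q q' : Bool, C.h p p' q q' + D.h q q' p p' ≤
      (cond p u 0 + cond p' u 0) + (cond q v 0 + cond q' v 0) + w)
    {α β : Type} [Fintype α] [Fintype β]
    (P : α → α → β → Bool) (Q : α → β → β → Bool)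
    (hP : ∀ a a' b, P a a' b = P a' a b) (hQ : ∀ a b b', Q a b b' = Q a b' b)
    (hf : ∀ a a' b b', (P a a' b || P a a' b' || Q a b b' || Q a' b b') = true) :
    (C.c + D.c - 12 * w) * ((Fintype.card α : ℤ) ^ 2 * (Fintype.card β : ℤ) ^ 2) ≤
      24 * (u * Fintype.card β * ∑ a, ∑ a', ∑ b, cond (P a a' b) 1 0 +
        v * Fintype.card α * ∑ a, ∑ b, ∑ b', cond (Q a b b') 1 0) := by
  have h1 := main C hC P Q hP hQ hf
  have h2 := main D hD (fun b b' a => Q a b b') (fun b a a' => P a a' b)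
    (fun b b' a => hQ a b b') (fun b a a' => hP a a' b) (fun b b' a a' => by
      have := hf a a' b b'
      revert this
      cases P a a' b <;> cases P a a' b' <;> cases Q a b b' <;> cases Q a' b b' <;> simp)
  have e1 : ∑ b, ∑ b', ∑ a, ∑ a', D.h (Q a b b') (Q a' b b') (P a a' b) (P a a' b') =
      ∑ a, ∑ a', ∑ b, ∑ b', D.h (Q a b b') (Q a' b b') (P a a' b) (P a a' b') := by
    have : ∀ G : α → α → β → β → ℤ, ∑ b, ∑ b', ∑ a, ∑ a', G a a' b b' =
        ∑ a, ∑ a', ∑ b, ∑ b', G a a' b b' := by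
      intro G
      have i1 : ∑ b, ∑ b', ∑ a, ∑ a', G a a' b b' = ∑ b : β × β, ∑ a : α × α, G a.1 a.2 b.1 b.2 := by
        simp only [Fintype.sum_prod_type]
      have i2 : ∑ a, ∑ a', ∑ b, ∑ b', G a a' b b' = ∑ a : α × α, ∑ b : β × β, G a.1 a.2 b.1 b.2 := by
        simp only [Fintype.sum_prod_type]
      rw [i1, i2, Finset.sum_comm]
    exact this (fun a a' b b' => D.h (Q a b b') (Q a' b b') (P a a' b) (P a a' b'))
  rw [e1] at h2
  have h3 : (∑ a, ∑ a', ∑ b, ∑ b', C.h (P a a' b) (P a a' b') (Q a b b') (Q a' b b')) +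
      (∑ a, ∑ a', ∑ b, ∑ b', D.h (Q a b b') (Q a' b b') (P a a' b) (P a a' b')) ≤
      ∑ a, ∑ a', ∑ b, ∑ b', ((cond (P a a' b) u 0 + cond (P a a' b') u 0) +
        (cond (Q a b b') v 0 + cond (Q a' b b') v 0) + w) := by
    simp only [← Finset.sum_add_distrib]
    refine Finset.sum_le_sum fun a _ => Finset.sum_le_sum fun a' _ => Finset.sum_le_sum fun b _ =>
      Finset.sum_le_sum fun b' _ => hCD _ _ _ _
  have cu : ∀ p : Bool, cond p u 0 = u * cond p 1 0 := by intro p; cases p <;> simp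
  have cv : ∀ p : Bool, cond p v 0 = v * cond p 1 0 := by intro p; cases p <;> simp
  have h4 : ∑ a, ∑ a', ∑ b, ∑ b', ((cond (P a a' b) u 0 + cond (P a a' b') u 0) +
        (cond (Q a b b') v 0 + cond (Q a' b b') v 0) + w) =
      2 * (u * Fintype.card β * ∑ a, ∑ a', ∑ b, cond (P a a' b) 1 0 +
        v * Fintype.card α * ∑ a, ∑ b, ∑ b', cond (Q a b b') 1 0) +
        w * ((Fintype.card α : ℤ) ^ 2 * (Fintype.card β : ℤ) ^ 2) := by
    simp only [Finset.sum_add_distrib, cu, cv]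
    have j1 : ∑ a : α, ∑ a' : α, ∑ b : β, ∑ _b' : β, u * (cond (P a a' b) (1 : ℤ) 0) =
        u * Fintype.card β * ∑ a, ∑ a', ∑ b, cond (P a a' b) 1 0 := by
      simp only [Finset.sum_const, Finset.card_univ, nsmul_eq_mul, Finset.mul_sum]
      refine Finset.sum_congr rfl fun _ _ => Finset.sum_congr rfl fun _ _ =>
        Finset.sum_congr rfl fun _ _ => by ring
    have j2 : ∑ a : α, ∑ a' : α, ∑ _b : β, ∑ b' : β, u * (cond (P a a' b') (1 : ℤ) 0) =
        u * Fintype.card β * ∑ a, ∑ a', ∑ b, cond (P a a' b) 1 0 := by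
      simp only [Finset.sum_const, Finset.card_univ, nsmul_eq_mul, Finset.mul_sum]
      refine Finset.sum_congr rfl fun _ _ => Finset.sum_congr rfl fun _ _ =>
        Finset.sum_congr rfl fun _ _ => by ring
    have j3 : ∑ a : α, ∑ _a' : α, ∑ b : β, ∑ b' : β, v * (cond (Q a b b') (1 : ℤ) 0) =
        v * Fintype.card α * ∑ a, ∑ b, ∑ b', cond (Q a b b') 1 0 := by
      simp only [Finset.sum_const, Finset.card_univ, nsmul_eq_mul, Finset.mul_sum]
      refine Finset.sum_congr rfl fun _ _ => Finset.sum_congr rfl fun _ _ =>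
        Finset.sum_congr rfl fun _ _ => by ring
    have j4 : ∑ _a : α, ∑ a' : α, ∑ b : β, ∑ b' : β, v * (cond (Q a' b b') (1 : ℤ) 0) =
        v * Fintype.card α * ∑ a, ∑ b, ∑ b', cond (Q a b b') 1 0 := by
      rw [Finset.sum_comm]
      exact j3
    have j5 : ∑ _a : α, ∑ _a' : α, ∑ _b : β, ∑ _b' : β, w =
        w * ((Fintype.card α : ℤ) ^ 2 * (Fintype.card β : ℤ) ^ 2) := by
      simp only [Finset.sum_const, Finset.card_univ, nsmul_eq_mul]
      ring
    rw [j1, j2, j3, j4, j5]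
    ring
  rw [h4] at h3
  nlinarith [h1, h2, h3]

/-- a real form of the three inequalities together -/
theorem numeric (m M p q : ℝ) (hM : 0 < M) (hm : M ≤ m) (hp : 0 ≤ p)
    (h1 : 0.61386 * (m ^ 2 * M ^ 2) ≤ M * p + m * q)
    (h2 : 0.64286 * (m ^ 2 * M ^ 2) ≤ 1.1 * M * p + m * q)
    (h3 : 0.71178 * (m ^ 2 * M ^ 2) ≤ 1.4 * M * p + m * q) :
    3 * (m ^ 2 * M + m * M ^ 2 - p - q) ≤ 13 / 25 * (m + M) ^ 3 := by
  have hm0 : 0 < m := lt_of_lt_of_le hM hm
  have hmM : 0 < m * M := mul_pos hm0 hM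
  rcases le_total m (1.1 * M) with h | h
  · have k1 : (m * M) * (((11 * M - 10 * m) * 0.61386 + 10 * (m - M) * 0.64286) * (m * M)) ≤
        (m * M) * (p + q) := by
      have i1 := mul_le_mul_of_nonneg_left h1 (by linarith : (0 : ℝ) ≤ 11 * M - 10 * m)
      have i2 := mul_le_mul_of_nonneg_left h2 (by linarith : (0 : ℝ) ≤ 10 * (m - M))
      nlinarith
    have k2 := le_of_mul_le_mul_left k1 hmM
    obtain ⟨t, rfl⟩ : ∃ t, m = M + t := ⟨m - M, by ring⟩
    have ht : 0 ≤ t := by linarith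
    have key : 3 * ((M + t) ^ 2 * M + (M + t) * M ^ 2 -
        ((11 * M - 10 * (M + t)) * 0.61386 + 10 * (M + t - M) * 0.64286) * ((M + t) * M)) ≤
        13 / 25 * (M + t + M) ^ 3 := by
      have hh : 0 ≤ 0.00158 * M ^ 2 - 0.04826 * M * t + 0.99 * t ^ 2 := by
        nlinarith [sq_nonneg (0.0243737 * t * 40.6 - 0.04 * M / 1.6), sq_nonneg (M - 30 * t),
          sq_nonneg t, sq_nonneg M]
      have h5 : 0 ≤ M * (0.00158 * M ^ 2 - 0.04826 * M * t + 0.99 * t ^ 2) := mul_nonneg hM.le hh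
      have h6 : 0 ≤ t ^ 3 := by positivity
      have h7 : 0 ≤ M * t ^ 2 := by positivity
      nlinarith
    linarith
  · rcases le_total m (1.4 * M) with h' | h'
    · have k1 : (m * M) * (((14 * M - 10 * m) * 0.64286 + (10 * m - 11 * M) * 0.71178) * (m * M)) ≤
          (m * M) * (3 * (p + q)) := by
        have i1 := mul_le_mul_of_nonneg_left h2 (by linarith : (0 : ℝ) ≤ 14 * M - 10 * m)
        have i2 := mul_le_mul_of_nonneg_left h3 (by linarith : (0 : ℝ) ≤ 10 * m - 11 * M)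
        nlinarith
      have k2 := le_of_mul_le_mul_left k1 hmM
      obtain ⟨t, rfl⟩ : ∃ t, m = 1.1 * M + t := ⟨m - 1.1 * M, by ring⟩
      have ht : 0 ≤ t := by linarith
      have key : 3 * ((1.1 * M + t) ^ 2 * M + (1.1 * M + t) * M ^ 2) -
          ((14 * M - 10 * (1.1 * M + t)) * 0.64286 + (10 * (1.1 * M + t) - 11 * M) * 0.71178) *
            ((1.1 * M + t) * M) ≤ 13 / 25 * (1.1 * M + t + M) ^ 3 := by
        have hh : 0 ≤ 0.007 * M ^ 2 - 0.034 * M * t + 0.96 * t ^ 2 := by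
          nlinarith [sq_nonneg (t - 0.0177 * M), sq_nonneg M]
        have h5 : 0 ≤ M * (0.007 * M ^ 2 - 0.034 * M * t + 0.96 * t ^ 2) := mul_nonneg hM.le hh
        have h6 : 0 ≤ t ^ 3 := by positivity
        have h7 : 0 ≤ M * t ^ 2 := by positivity
        have h8 : 0 ≤ M ^ 3 := by positivity
        nlinarith
      linarith
    · have k1 : m * (0.71178 * (m * M ^ 2)) ≤ m * (p + q) := by
        have : 1.4 * M * p ≤ m * p := mul_le_mul_of_nonneg_right h' hp
        nlinarith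
      have k2 := le_of_mul_le_mul_left k1 hm0
      obtain ⟨t, rfl⟩ : ∃ t, m = 1.4 * M + t := ⟨m - 1.4 * M, by ring⟩
      have ht : 0 ≤ t := by linarith
      have key : 3 * ((1.4 * M + t) ^ 2 * M + (1.4 * M + t) * M ^ 2 -
          0.71178 * ((1.4 * M + t) * M ^ 2)) ≤ 13 / 25 * (1.4 * M + t + M) ^ 3 := by
        have hh : 0 ≤ 0.09 * M ^ 2 - 0.28 * M * t + 0.74 * t ^ 2 := by
          nlinarith [sq_nonneg (t - 0.189 * M), sq_nonneg M]
        have h5 : 0 ≤ M * (0.09 * M ^ 2 - 0.28 * M * t + 0.74 * t ^ 2) := mul_nonneg hM.le hh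
        have h6 : 0 ≤ t ^ 3 := by positivity
        have h7 : 0 ≤ M * t ^ 2 := by positivity
        have h8 : 0 ≤ M ^ 3 := by positivity
        nlinarith
      linarith

end Pool.Agent.K4H68.TC
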