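import Mathlib

set_option autoImplicit false

open Finset

namespace Pool.Agent.K4H68.TC

/-- entry `(i, j)` of the Gram matrix of the vectors in `V` -/
def gram (V : List (List ℤ)) (i j : ℕ) : ℤ := (V.map fun l => l.getD i 0 * l.getD j 0).sum

theorem gram_cons (l : List ℤ) (V : List (List ℤ)) (i j : ℕ) :
    gram (l :: V) i j = l.getD i 0 * l.getD j 0 + gram V i j := by
  simp [gram]

theorem gram_nonneg {ι : Type} [Fintype ι] (V : List (List ℤ)) (F : ι → ℕ) :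
    0 ≤ ∑ s, ∑ t, gram V (F s) (F t) := by
  induction V with
  | nil => simp [gram]
  | cons l V ih =>
    have h : ∑ s, ∑ t, gram (l :: V) (F s) (F t) =
        (∑ s, l.getD (F s) 0) * (∑ t, l.getD (F t) 0) + ∑ s, ∑ t, gram V (F s) (F t) := by
      rw [Finset.sum_mul_sum, ← Finset.sum_add_distrib]
      refine Finset.sum_congr rfl fun s _ => ?_
      rw [← Finset.sum_add_distrib]
      exact Finset.sum_congr rfl fun t _ => gram_cons _ _ _ _
    rw [h]
    exact add_nonneg (mul_self_nonneg _) ih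

/-- index of a triple of truth values -/
def ix (x y z : Bool) : ℕ := cond x 1 0 + (cond y 2 0 + cond z 4 0)

/-- the data of a certificate -/
structure Cert where
  H : List ℤ
  V1 : List (List ℤ)
  V2 : List (List ℤ)
  V3 : List (List ℤ)
  V4 : List (List ℤ)
  c : ℤ

/-- the linear part -/
def Cert.h (C : Cert) (p p' q q' : Bool) : ℤ :=
  C.H.getD (cond p 1 0 + (cond p' 2 0 + (cond q 4 0 + cond q' 8 0))) 0

/-- the function whose average is considered -/
def Cert.phi (C : Cert) (p p' r r' s s' x y z : Bool) : ℤ :=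
  C.h p p' x y - gram C.V1 (cond p 1 0) (cond r' 1 0) -
    cond x (gram C.V3 (ix p p' y) (ix r r' z)) (gram C.V2 (ix p p' y) (ix r r' z)) -
    gram C.V4 (ix p r s) (ix p' r' s')

/-- the sum over the permutations of the three vertices of one class -/
def Cert.sym (C : Cert) (p p' r r' s s' x y z : Bool) : ℤ :=
  C.phi p p' r r' s s' x y z + C.phi p p' s s' r r' y x z + C.phi r r' p p' s s' x z y +
    (C.phi r r' s s' p p' z x y + C.phi s s' p p' r r' y z x + C.phi s s' r r' p p' z y x)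

/-- the inequality for all configurations -/
def Cert.valid (C : Cert) : Bool :=
  decide (∀ p p' r r' s s' x y z : Bool,
    ((p || p' || x || y) && (r || r' || x || z) && (s || s' || y || z)) = true →
    C.c ≤ C.sym p p' r r' s s' x y z + C.sym p' p r' r s' s x y z)

section
variable {α β : Type} [Fintype α] [Fintype β]

/-- swap the first two vertices -/
def e12 : (α × α × α × β × β) ≃ (α × α × α × β × β) where
  toFun := fun x => (x.2.1, x.1, x.2.2)
  invFun := fun x => (x.2.1, x.1, x.2.2)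
  left_inv := fun _ => rfl
  right_inv := fun _ => rfl

/-- swap the second and the third vertex -/
def e23 : (α × α × α × β × β) ≃ (α × α × α × β × β) where
  toFun := fun x => (x.1, x.2.2.1, x.2.1, x.2.2.2)
  invFun := fun x => (x.1, x.2.2.1, x.2.1, x.2.2.2)
  left_inv := fun _ => rfl
  right_inv := fun _ => rfl

/-- swap the last two vertices -/
def e45 : (α × α × α × β × β) ≃ (α × α × α × β × β) where
  toFun := fun x => (x.1, x.2.1, x.2.2.1, x.2.2.2.2, x.2.2.2.1)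
  invFun := fun x => (x.1, x.2.1, x.2.2.1, x.2.2.2.2, x.2.2.2.1)
  left_inv := fun _ => rfl
  right_inv := fun _ => rfl

theorem main (C : Cert) (hC : C.valid = true) (P : α → α → β → Bool) (Q : α → β → β → Bool)
    (hP : ∀ a a' b, P a a' b = P a' a b) (hQ : ∀ a b b', Q a b b' = Q a b' b)
    (hf : ∀ a a' b b', (P a a' b || P a a' b' || Q a b b' || Q a' b b') = true) :
    C.c * ((Fintype.card α : ℤ) ^ 2 * (Fintype.card β : ℤ) ^ 2) ≤
      12 * ∑ a, ∑ a', ∑ b, ∑ b', C.h (P a a' b) (P a a' b') (Q a b b') (Q a' b b') := by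
  classical
  set S22 : ℤ := ∑ a, ∑ a', ∑ b, ∑ b', C.h (P a a' b) (P a a' b') (Q a b b') (Q a' b b') with hS
  let W : (α × α × α × β × β) → ℤ := fun t =>
    C.phi (P t.1 t.2.1 t.2.2.2.1) (P t.1 t.2.1 t.2.2.2.2) (P t.1 t.2.2.1 t.2.2.2.1)
      (P t.1 t.2.2.1 t.2.2.2.2) (P t.2.1 t.2.2.1 t.2.2.2.1) (P t.2.1 t.2.2.1 t.2.2.2.2)
      (Q t.1 t.2.2.2.1 t.2.2.2.2) (Q t.2.1 t.2.2.2.1 t.2.2.2.2) (Q t.2.2.1 t.2.2.2.1 t.2.2.2.2)
  have hval : ∀ p p' r r' s s' x y z : Bool,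
      ((p || p' || x || y) && (r || r' || x || z) && (s || s' || y || z)) = true →
      C.c ≤ C.sym p p' r r' s s' x y z + C.sym p' p r' r s' s x y z := of_decide_eq_true hC
  -- the sum over all tuples, symmetrised
  have hsym : (12 : ℤ) * ∑ t, W t = ∑ t, ((W t + W (e12 t) + W (e23 t) + (W (e12 (e23 t)) +
      W (e23 (e12 t)) + W (e12 (e23 (e12 t))))) + (W (e45 t) + W (e12 (e45 t)) + W (e23 (e45 t)) +
      (W (e12 (e23 (e45 t))) + W (e23 (e12 (e45 t))) + W (e12 (e23 (e12 (e45 t))))))) := by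
    simp only [Finset.sum_add_distrib]
    have i1 : ∀ G : (α × α × α × β × β) → ℤ, ∑ t, G (e12 t) = ∑ t, G t := fun G => Equiv.sum_comp e12 G
    have i2 : ∀ G : (α × α × α × β × β) → ℤ, ∑ t, G (e23 t) = ∑ t, G t := fun G => Equiv.sum_comp e23 G
    have i3 : ∀ G : (α × α × α × β × β) → ℤ, ∑ t, G (e45 t) = ∑ t, G t := fun G => Equiv.sum_comp e45 G
    rw [i3 W, i3 (fun t => W (e12 t)), i3 (fun t => W (e23 t)), i3 (fun t => W (e12 (e23 t))),
      i3 (fun t => W (e23 (e12 t))), i3 (fun t => W (e12 (e23 (e12 t)))),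
      i1 (fun t => W (e12 (e23 t))), i2 (fun t => W (e12 t)), i1 (fun t => W (e23 t)), i1 W, i2 W]
    ring
  have hpt : ∀ t : (α × α × α × β × β), C.c ≤ ((W t + W (e12 t) + W (e23 t) + (W (e12 (e23 t)) +
      W (e23 (e12 t)) + W (e12 (e23 (e12 t))))) + (W (e45 t) + W (e12 (e45 t)) + W (e23 (e45 t)) +
      (W (e12 (e23 (e45 t))) + W (e23 (e12 (e45 t))) + W (e12 (e23 (e12 (e45 t))))))) := by
    rintro ⟨a1, a2, a3, b1, b2⟩
    have h := hval (P a1 a2 b1) (P a1 a2 b2) (P a1 a3 b1) (P a1 a3 b2) (P a2 a3 b1) (P a2 a3 b2)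
      (Q a1 b1 b2) (Q a2 b1 b2) (Q a3 b1 b2) (by
        rw [hf a1 a2 b1 b2, hf a1 a3 b1 b2, hf a2 a3 b1 b2]; rfl)
    refine h.trans (le_of_eq ?_)
    simp only [W, e12, e23, e45, Equiv.coe_fn_mk, Cert.sym]
    simp only [hP a2 a1, hP a3 a1, hP a3 a2, hQ a1 b2 b1, hQ a2 b2 b1, hQ a3 b2 b1]
  have hcard : (Fintype.card (α × α × α × β × β) : ℤ) =
      (Fintype.card α : ℤ) ^ 3 * (Fintype.card β : ℤ) ^ 2 := by
    simp only [Fintype.card_prod]
    push_cast
    ring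
  have hlow : C.c * ((Fintype.card α : ℤ) ^ 3 * (Fintype.card β : ℤ) ^ 2) ≤ 12 * ∑ t, W t := by
    rw [hsym, ← hcard]
    have : ∑ _t : (α × α × α × β × β), C.c = C.c * (Fintype.card (α × α × α × β × β) : ℤ) := by
      rw [Finset.sum_const, Finset.card_univ, nsmul_eq_mul, mul_comm]
    rw [← this]
    exact Finset.sum_le_sum fun t _ => hpt t
  -- the sum over all tuples, as squares
  have hup : ∑ t, W t ≤ (Fintype.card α : ℤ) * S22 := by
    have hW : ∑ t, W t = ∑ a1, ∑ a2, ∑ a3, ∑ b1, ∑ b2,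
        C.phi (P a1 a2 b1) (P a1 a2 b2) (P a1 a3 b1) (P a1 a3 b2) (P a2 a3 b1) (P a2 a3 b2)
      (Q a1 b1 b2) (Q a2 b1 b2) (Q a3 b1 b2) := by
      simp only [W, Fintype.sum_prod_type]
    have e0 : ∑ a1, ∑ a2, ∑ _a3 : α, ∑ b1, ∑ b2, C.h (P a1 a2 b1) (P a1 a2 b2) (Q a1 b1 b2)
        (Q a2 b1 b2) = (Fintype.card α : ℤ) * S22 := by
      simp only [Finset.sum_const, Finset.card_univ, nsmul_eq_mul, ← Finset.mul_sum]
      rw [hS]
    have e1 : 0 ≤ ∑ a1, ∑ a2, ∑ a3, ∑ b1, ∑ b2, gram C.V1 (cond (P a1 a2 b1) 1 0)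
        (cond (P a1 a3 b2) 1 0) := by
      refine Finset.sum_nonneg fun a1 _ => ?_
      have := gram_nonneg C.V1 (fun s : α × β => cond (P a1 s.1 s.2) 1 0)
      simp only [Fintype.sum_prod_type] at this
      refine this.trans (le_of_eq ?_)
      refine Finset.sum_congr rfl fun a2 _ => ?_
      rw [Finset.sum_comm]
    have e2 : 0 ≤ ∑ a1, ∑ a2, ∑ a3, ∑ b1, ∑ b2, (cond (Q a1 b1 b2)
        (gram C.V3 (ix (P a1 a2 b1) (P a1 a2 b2) (Q a2 b1 b2)) (ix (P a1 a3 b1) (P a1 a3 b2) (Q a3 b1 b2)))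
        (gram C.V2 (ix (P a1 a2 b1) (P a1 a2 b2) (Q a2 b1 b2)) (ix (P a1 a3 b1) (P a1 a3 b2) (Q a3 b1 b2)))) := by
      have : ∀ a1, ∑ a2, ∑ a3, ∑ b1, ∑ b2, (cond (Q a1 b1 b2)
        (gram C.V3 (ix (P a1 a2 b1) (P a1 a2 b2) (Q a2 b1 b2)) (ix (P a1 a3 b1) (P a1 a3 b2) (Q a3 b1 b2)))
        (gram C.V2 (ix (P a1 a2 b1) (P a1 a2 b2) (Q a2 b1 b2)) (ix (P a1 a3 b1) (P a1 a3 b2) (Q a3 b1 b2)))) =
        ∑ b : β × β, ∑ a2, ∑ a3, (cond (Q a1 b.1 b.2)
        (gram C.V3 (ix (P a1 a2 b.1) (P a1 a2 b.2) (Q a2 b.1 b.2)) (ix (P a1 a3 b.1) (P a1 a3 b.2) (Q a3 b.1 b.2)))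
        (gram C.V2 (ix (P a1 a2 b.1) (P a1 a2 b.2) (Q a2 b.1 b.2)) (ix (P a1 a3 b.1) (P a1 a3 b.2) (Q a3 b.1 b.2)))) := by
        intro a1
        symm
        rw [Finset.sum_comm]
        refine Finset.sum_congr rfl fun a2 _ => ?_
        rw [Finset.sum_comm]
        refine Finset.sum_congr rfl fun a3 _ => ?_
        rw [Fintype.sum_prod_type]
      refine Finset.sum_nonneg fun a1 _ => ?_
      rw [this]
      refine Finset.sum_nonneg fun b _ => ?_
      cases Q a1 b.1 b.2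
      · exact gram_nonneg C.V2 (fun a => ix (P a1 a b.1) (P a1 a b.2) (Q a b.1 b.2))
      · exact gram_nonneg C.V3 (fun a => ix (P a1 a b.1) (P a1 a b.2) (Q a b.1 b.2))
    have e3 : 0 ≤ ∑ a1, ∑ a2, ∑ a3, ∑ b1, ∑ b2, gram C.V4 (ix (P a1 a2 b1) (P a1 a3 b1) (P a2 a3 b1))
        (ix (P a1 a2 b2) (P a1 a3 b2) (P a2 a3 b2)) := by
      refine Finset.sum_nonneg fun a1 _ => Finset.sum_nonneg fun a2 _ => Finset.sum_nonneg fun a3 _ => ?_
      exact gram_nonneg C.V4 (fun b => ix (P a1 a2 b) (P a1 a3 b) (P a2 a3 b))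
    rw [hW]
    simp only [Cert.phi, Finset.sum_sub_distrib]
    linarith
  have hmain : C.c * ((Fintype.card α : ℤ) ^ 3 * (Fintype.card β : ℤ) ^ 2) ≤
      (Fintype.card α : ℤ) * (12 * S22) := by
    calc _ ≤ 12 * ∑ t, W t := hlow
      _ ≤ 12 * ((Fintype.card α : ℤ) * S22) := by linarith
      _ = _ := by ring
  rcases Nat.eq_zero_or_pos (Fintype.card α) with h0 | h0
  · have : IsEmpty α := Fintype.card_eq_zero_iff.1 h0
    rw [hS, h0]
    simp
  · have h1 : (0 : ℤ) < (Fintype.card α : ℤ) := by exact_mod_cast h0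
    have h2 : (Fintype.card α : ℤ) * (C.c * ((Fintype.card α : ℤ) ^ 2 * (Fintype.card β : ℤ) ^ 2)) ≤
        (Fintype.card α : ℤ) * (12 * S22) := by
      calc _ = C.c * ((Fintype.card α : ℤ) ^ 3 * (Fintype.card β : ℤ) ^ 2) := by ring
        _ ≤ _ := hmain
    exact le_of_mul_le_mul_left h2 h1

end

end Pool.Agent.K4H68.TC
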