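import Pool.Agent.K4H68.TC.Count

set_option autoImplicit false

open Finset

namespace Pool.Agent.K4H68.TC

open Pool.Agent.K4H68.QC

theorem pairs_sum {V : Type} [DecidableEq V] (f : Finset V → ℤ) (A : Finset V) :
    ∑ a ∈ A, ∑ a' ∈ A, (if a = a' then 0 else f {a, a'}) = 2 * ∑ s ∈ powersetCard 2 A, f s := by
  classical
  induction A using Finset.induction_on with
  | empty =>
    have h : powersetCard 2 (∅ : Finset V) = ∅ := Finset.powersetCard_eq_empty.2 (by simp)
    rw [h]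
    simp
  | insert x A hx ih =>
    rw [Finset.powersetCard_succ_insert hx 1, Finset.sum_union]
    · have e1 : ∑ s ∈ (powersetCard 1 A).image (insert x), f s = ∑ a ∈ A, f {x, a} := by
        rw [Finset.sum_image]
        · rw [Finset.powersetCard_one, Finset.sum_map]
          rfl
        · intro s hs t ht h
          rw [mem_coe, mem_powersetCard] at hs ht
          have h1 : x ∉ s := fun h => hx (hs.1 h)
          have h2 : x ∉ t := fun h => hx (ht.1 h)
          rw [← Finset.erase_insert h1, ← Finset.erase_insert h2]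
          exact congrArg (fun u => Finset.erase u x) h
      rw [e1, Finset.sum_insert hx, Finset.sum_insert hx, if_pos rfl]
      have e2 : ∑ a ∈ A, ∑ a' ∈ insert x A, (if a = a' then 0 else f {a, a'}) =
          ∑ a ∈ A, f {x, a} + ∑ a ∈ A, ∑ a' ∈ A, (if a = a' then 0 else f {a, a'}) := by
        rw [← Finset.sum_add_distrib]
        refine Finset.sum_congr rfl fun a ha => ?_
        have hax : a ≠ x := fun h => hx (h ▸ ha)
        rw [Finset.sum_insert hx, if_neg hax, Finset.pair_comm a x]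
      have e3 : ∑ a' ∈ A, (if x = a' then 0 else f {x, a'}) = ∑ a ∈ A, f {x, a} := by
        refine Finset.sum_congr rfl fun a ha => ?_
        have hax : x ≠ a := fun h => hx (h ▸ ha)
        rw [if_neg hax]
      rw [e2, e3, ih]
      ring
    · rw [Finset.disjoint_left]
      intro s hs hs'
      rw [mem_powersetCard] at hs
      rw [mem_image] at hs'
      obtain ⟨t, _, rfl⟩ := hs'
      exact hx (hs.1 (mem_insert_self _ _))

variable {V : Type} [Fintype V] [DecidableEq V]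

theorem four {H : Finset (Finset V)} (hF : Free H) {A : Finset V} {a a' b b' : V} (ha : a ∈ A)
    (ha' : a' ∈ A) (hb : b ∈ Aᶜ) (hb' : b' ∈ Aᶜ) (h1 : a ≠ a') (h2 : b ≠ b')
    (i1 : insert b ({a, a'} : Finset V) ∈ H) (i2 : insert b' ({a, a'} : Finset V) ∈ H)
    (i3 : insert a ({b, b'} : Finset V) ∈ H) (i4 : insert a' ({b, b'} : Finset V) ∈ H) : False := by
  have n1 : a ≠ b := fun e => (mem_compl.1 hb) (e ▸ ha)
  have n2 : a ≠ b' := fun e => (mem_compl.1 hb') (e ▸ ha)
  have n3 : a' ≠ b := fun e => (mem_compl.1 hb) (e ▸ ha')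
  have n4 : a' ≠ b' := fun e => (mem_compl.1 hb') (e ▸ ha')
  have hc : (insert a (insert a' ({b, b'} : Finset V))).card = 4 := by
    rw [Finset.card_insert_of_notMem, Finset.card_insert_of_notMem, Finset.card_pair h2]
    · simp [n3, n4]
    · simp [h1, n1, n2]
  obtain ⟨e, heS, hec, heH⟩ := hF _ hc
  have h5 : (insert a (insert a' ({b, b'} : Finset V)) \ e).card = 1 := by
    rw [Finset.card_sdiff_of_subset heS, hc, hec]
  obtain ⟨w, hw⟩ := Finset.card_eq_one.1 h5
  have hwm : w ∈ insert a (insert a' ({b, b'} : Finset V)) \ e := by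
    rw [hw]; exact mem_singleton_self _
  have hee : e = (insert a (insert a' ({b, b'} : Finset V))).erase w := by
    ext v
    rw [mem_erase]
    constructor
    · intro hv
      refine ⟨?_, heS hv⟩
      rintro rfl
      exact (mem_sdiff.1 hwm).2 hv
    · rintro ⟨hv1, hv2⟩
      by_contra hv
      have : v ∈ insert a (insert a' ({b, b'} : Finset V)) \ e := mem_sdiff.2 ⟨hv2, hv⟩
      rw [hw] at this
      exact hv1 (mem_singleton.1 this)
  have hwi := (mem_sdiff.1 hwm).1
  simp only [mem_insert, mem_singleton] at hwi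
  apply heH
  rw [hee]
  rcases hwi with rfl | rfl | rfl | rfl
  · rw [Finset.erase_insert]
    · exact i4
    · simp [h1, n1, n2]
  · convert i3 using 1
    ext v
    simp only [mem_insert, mem_singleton, mem_erase]
    constructor
    · rintro ⟨hv, rfl | rfl | rfl | rfl⟩ <;> simp_all
    · rintro (rfl | rfl | rfl)
      · exact ⟨h1, by simp⟩
      · exact ⟨n3.symm, by simp⟩
      · exact ⟨n4.symm, by simp⟩
  · convert i2 using 1
    ext v
    simp only [mem_insert, mem_singleton, mem_erase]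
    constructor
    · rintro ⟨hv, rfl | rfl | rfl | rfl⟩ <;> simp_all
    · rintro (rfl | rfl | rfl)
      · exact ⟨h2.symm, by simp⟩
      · exact ⟨n1, by simp⟩
      · exact ⟨n3, by simp⟩
  · convert i1 using 1
    ext v
    simp only [mem_insert, mem_singleton, mem_erase]
    constructor
    · rintro ⟨hv, rfl | rfl | rfl | rfl⟩ <;> simp_all
    · rintro (rfl | rfl | rfl)
      · exact ⟨h2, by simp⟩
      · exact ⟨n2, by simp⟩
      · exact ⟨n4, by simp⟩

/-- the triples with two vertices in `A` -/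
theorem count_two (H : Finset (Finset V)) (A : Finset V) :
    ∑ a : {x // x ∈ A}, ∑ a' : {x // x ∈ A}, ∑ b : {x // x ∈ Aᶜ},
      cond (decide (a = a' ∨ insert (b : V) ({(a : V), (a' : V)} : Finset V) ∉ H)) (1 : ℤ) 0 =
    (A.card : ℤ) ^ 2 * Aᶜ.card -
      2 * ∑ s ∈ powersetCard 2 A, ((Aᶜ.filter fun b => insert b s ∈ H).card : ℤ) := by
  rw [← pairs_sum (fun s => ((Aᶜ.filter fun b => insert b s ∈ H).card : ℤ)) A]
  have e1 : (A.card : ℤ) ^ 2 * Aᶜ.card = ∑ _a ∈ A, ∑ _a' ∈ A, (Aᶜ.card : ℤ) := by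
    simp only [Finset.sum_const, nsmul_eq_mul]; ring
  rw [e1, ← Finset.sum_sub_distrib, ← Finset.sum_coe_sort A]
  refine Finset.sum_congr rfl fun a _ => ?_
  rw [← Finset.sum_sub_distrib, ← Finset.sum_coe_sort A]
  refine Finset.sum_congr rfl fun a' _ => ?_
  rw [Finset.sum_coe_sort Aᶜ (fun b : V => cond (decide (a = a' ∨ insert b ({(a : V), (a' : V)} :
    Finset V) ∉ H)) (1 : ℤ) 0)]
  by_cases h : a = a'
  · subst h
    simp
  · have h' : (a : V) ≠ (a' : V) := fun e => h (Subtype.ext e)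
    rw [if_neg h']
    have e2 : ∀ b : V, cond (decide (a = a' ∨ insert b ({(a : V), (a' : V)} : Finset V) ∉ H)) (1 : ℤ) 0 =
        1 - (if insert b ({(a : V), (a' : V)} : Finset V) ∈ H then 1 else 0) := by
      intro b
      by_cases hb : insert b ({(a : V), (a' : V)} : Finset V) ∈ H <;> simp [h, hb]
    simp only [e2, Finset.sum_sub_distrib, Finset.sum_const, nsmul_eq_mul, mul_one]
    rw [Finset.card_filter]
    push_cast
    rfl

theorem count_one (H : Finset (Finset V)) (A : Finset V) :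
    ∑ a : {x // x ∈ A}, ∑ b : {x // x ∈ Aᶜ}, ∑ b' : {x // x ∈ Aᶜ},
      cond (decide (b = b' ∨ insert (a : V) ({(b : V), (b' : V)} : Finset V) ∉ H)) (1 : ℤ) 0 =
    (A.card : ℤ) * (Aᶜ.card : ℤ) ^ 2 -
      2 * ∑ a ∈ A, (((powersetCard 2 Aᶜ).filter fun s => insert a s ∈ H).card : ℤ) := by
  have e0 : (2 : ℤ) * ∑ a ∈ A, (((powersetCard 2 Aᶜ).filter fun s => insert a s ∈ H).card : ℤ) =
      ∑ a ∈ A, ∑ b ∈ Aᶜ, ∑ b' ∈ Aᶜ, (if b = b' then 0 else
        (if insert a ({b, b'} : Finset V) ∈ H then (1 : ℤ) else 0)) := by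
    rw [Finset.mul_sum]
    refine Finset.sum_congr rfl fun a _ => ?_
    rw [pairs_sum (fun s => if insert a s ∈ H then (1 : ℤ) else 0) Aᶜ, Finset.card_filter]
    push_cast
    rfl
  have e1 : (A.card : ℤ) * (Aᶜ.card : ℤ) ^ 2 = ∑ _a ∈ A, ∑ _b ∈ Aᶜ, ∑ _b' ∈ Aᶜ, (1 : ℤ) := by
    simp only [Finset.sum_const, nsmul_eq_mul]; ring
  rw [e0, e1, ← Finset.sum_sub_distrib, ← Finset.sum_coe_sort A]
  refine Finset.sum_congr rfl fun a _ => ?_
  rw [← Finset.sum_sub_distrib, ← Finset.sum_coe_sort Aᶜ]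
  refine Finset.sum_congr rfl fun b _ => ?_
  rw [← Finset.sum_sub_distrib, ← Finset.sum_coe_sort Aᶜ]
  refine Finset.sum_congr rfl fun b' _ => ?_
  by_cases h : b = b'
  · subst h
    simp
  · have h' : (b : V) ≠ (b' : V) := fun e => h (Subtype.ext e)
    by_cases hb : insert (a : V) ({(b : V), (b' : V)} : Finset V) ∈ H <;> simp [h, h', hb]

theorem half {H : Finset (Finset V)} (h3 : Three H) (hF : Free H) {A : Finset V}
    (hA : Indep H A) (hB : Indep H Aᶜ) (hc : Aᶜ.card ≤ A.card) :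
    (6 * H.card : ℝ) ≤ 13 / 25 * (Fintype.card V : ℝ) ^ 3 := by
  have hn : (Fintype.card V : ℝ) = A.card + Aᶜ.card := by
    rw [← Nat.cast_add, Finset.card_add_card_compl]
  have hs := card_split h3 hA hB
  have c2 := count_two H A
  have c1 := count_one H A
  let P : {x // x ∈ A} → {x // x ∈ A} → {x // x ∈ Aᶜ} → Bool := fun a a' b =>
    decide (a = a' ∨ insert (b : V) ({(a : V), (a' : V)} : Finset V) ∉ H)
  let Q : {x // x ∈ A} → {x // x ∈ Aᶜ} → {x // x ∈ Aᶜ} → Bool := fun a b b' =>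
    decide (b = b' ∨ insert (a : V) ({(b : V), (b' : V)} : Finset V) ∉ H)
  have hP : ∀ a a' b, P a a' b = P a' a b := by
    intro a a' b
    simp only [P]
    rw [Finset.pair_comm]
    congr 2
    exact propext eq_comm
  have hQ : ∀ a b b', Q a b b' = Q a b' b := by
    intro a b b'
    simp only [Q]
    rw [Finset.pair_comm]
    congr 2
    exact propext eq_comm
  have hf : ∀ a a' b b', (P a a' b || P a a' b' || Q a b b' || Q a' b b') = true := by
    intro a a' b b'
    by_contra hcon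
    simp only [P, Q, Bool.or_eq_true, decide_eq_true_eq, not_or, not_not] at hcon
    obtain ⟨⟨⟨⟨k1, k2⟩, _, k3⟩, k4, k5⟩, _, k6⟩ := hcon
    exact four hF a.2 a'.2 b.2 b'.2 (fun e => k1 (Subtype.ext e)) (fun e => k4 (Subtype.ext e))
      k2 k3 k5 k6
  have q1 := ineq oneA oneB oneA_valid oneB_valid 50000000 50000000 2 (by decide +kernel) P Q hP hQ hf
  have q2 := ineq twoA twoB twoA_valid twoB_valid 55000000 50000000 2 (by decide +kernel) P Q hP hQ hf
  have q3 := ineq threeA threeB threeA_valid threeB_valid 70000000 50000000 2 (by decide +kernel) P Q hP hQ hf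
  have hcA : (Fintype.card {x // x ∈ A} : ℤ) = A.card := by rw [Fintype.card_coe]
  have hcB : (Fintype.card {x // x ∈ Aᶜ} : ℤ) = Aᶜ.card := by rw [Fintype.card_coe]
  rw [hcA, hcB] at q1 q2 q3
  have hp0 : 0 ≤ ∑ a, ∑ a', ∑ b, cond (P a a' b) (1 : ℤ) 0 :=
    Finset.sum_nonneg fun _ _ => Finset.sum_nonneg fun _ _ => Finset.sum_nonneg fun _ _ => by
      cases P _ _ _ <;> simp
  have d2 : ∑ a, ∑ a', ∑ b, cond (P a a' b) (1 : ℤ) 0 = (A.card : ℤ) ^ 2 * Aᶜ.card -
      2 * ∑ s ∈ powersetCard 2 A, ((Aᶜ.filter fun b => insert b s ∈ H).card : ℤ) := c2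
  have d1 : ∑ a, ∑ b, ∑ b', cond (Q a b b') (1 : ℤ) 0 = (A.card : ℤ) * (Aᶜ.card : ℤ) ^ 2 -
      2 * ∑ a ∈ A, (((powersetCard 2 Aᶜ).filter fun s => insert a s ∈ H).card : ℤ) := c1
  generalize (∑ a, ∑ a', ∑ b, cond (P a a' b) (1 : ℤ) 0) = p at q1 q2 q3 hp0 d2
  generalize (∑ a, ∑ b, ∑ b', cond (Q a b b') (1 : ℤ) 0) = q at q1 q2 q3 d1
  have hs' : (2 * H.card : ℤ) = (A.card : ℤ) ^ 2 * Aᶜ.card + A.card * (Aᶜ.card : ℤ) ^ 2 - p - q := by
    rw [d2, d1, hs]
    push_cast
    ring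
  have hsR : (2 * H.card : ℝ) = (A.card : ℝ) ^ 2 * Aᶜ.card + A.card * (Aᶜ.card : ℝ) ^ 2 - p - q := by
    exact_mod_cast hs'
  have hpR : (0 : ℝ) ≤ p := by exact_mod_cast hp0
  have e1 : oneA.c + oneB.c - 12 * 2 = 736632968 := by decide +kernel
  have e2 : twoA.c + twoB.c - 12 * 2 = 771440832 := by decide +kernel
  have e3 : threeA.c + threeB.c - 12 * 2 = 854143424 := by decide +kernel
  rw [e1] at q1
  rw [e2] at q2
  rw [e3] at q3
  have r1 : (736632968 : ℝ) * ((A.card : ℝ) ^ 2 * (Aᶜ.card : ℝ) ^ 2) ≤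
      24 * (50000000 * Aᶜ.card * p + 50000000 * A.card * q) := by exact_mod_cast q1
  have r2 : (771440832 : ℝ) * ((A.card : ℝ) ^ 2 * (Aᶜ.card : ℝ) ^ 2) ≤
      24 * (55000000 * Aᶜ.card * p + 50000000 * A.card * q) := by exact_mod_cast q2
  have r3 : (854143424 : ℝ) * ((A.card : ℝ) ^ 2 * (Aᶜ.card : ℝ) ^ 2) ≤
      24 * (70000000 * Aᶜ.card * p + 50000000 * A.card * q) := by exact_mod_cast q3
  have hmm : 0 ≤ (A.card : ℝ) ^ 2 * (Aᶜ.card : ℝ) ^ 2 := by positivity
  rcases Nat.eq_zero_or_pos Aᶜ.card with h0 | h0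
  · have : Aᶜ = ∅ := Finset.card_eq_zero.1 h0
    have h00 : H.card = 0 := by
      rw [hs, this]
      simp
    rw [h00]
    have : (0 : ℝ) ≤ 13 / 25 * (Fintype.card V : ℝ) ^ 3 := by positivity
    simp only [Nat.cast_zero, mul_zero]
    exact this
  · have := numeric (A.card : ℝ) (Aᶜ.card : ℝ) p q (by exact_mod_cast h0) (by exact_mod_cast hc) hpR
      (by nlinarith) (by nlinarith) (by nlinarith)
    rw [hn]
    linarith

theorem bound {H : Finset (Finset V)} (h3 : Three H) (hF : Free H) {A : Finset V}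
    (hA : Indep H A) (hB : Indep H Aᶜ) :
    (6 * H.card : ℝ) ≤ 13 / 25 * (Fintype.card V : ℝ) ^ 3 := by
  rcases le_total Aᶜ.card A.card with h | h
  · exact half h3 hF hA hB h
  · exact half h3 hF (A := Aᶜ) hB (by rw [compl_compl]; exact hA) (by rw [compl_compl]; exact h)

end Pool.Agent.K4H68.TC
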